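import Pool.Agent.Q278.PI

set_option autoImplicit false

/-! Weighted sums of squares of generalized central trinomial coefficients. -/

namespace Pool.Agent.Results.MP_bba144_nt.Full

open Finset Q278.PI

/-- `T_m(b, c)`. -/
def T (b c : ℤ) (m : ℕ) : ℤ :=
  ∑ j ∈ range (m / 2 + 1), (m.choose (2 * j) : ℤ) * ((2 * j).choose j : ℤ) * b ^ (m - 2 * j) * c ^ j

/-- The sum of Q1. -/
def s (b c : ℤ) (n : ℕ) : ℤ :=
  ∑ j ∈ range n, (8 * c * j + 4 * c + b) * T b (c ^ 2) j ^ 2 * (b - 2 * c) ^ (2 * (n - 1 - j))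

/-- one term -/
def t (b c : ℤ) (m j : ℕ) : ℤ :=
  (m.choose (2 * j) : ℤ) * ((2 * j).choose j : ℤ) * b ^ (m - 2 * j) * c ^ j

theorem t_zero {b c : ℤ} {m j : ℕ} (h : m < 2 * j) : t b c m j = 0 := by
  unfold t
  rw [Nat.choose_eq_zero_of_lt h]
  simp

theorem T_eq (b c : ℤ) {m M : ℕ} (h : m / 2 + 1 ≤ M) : T b c m = ∑ j ∈ range M, t b c m j := by
  unfold T
  apply sum_subset (range_mono h)
  intro j _ hj
  rw [mem_range, not_lt] at hj
  exact t_zero (by omega)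

theorem t_mul_b (b c : ℤ) (m j : ℕ) : b * t b c m j =
    (m.choose (2 * j) : ℤ) * ((2 * j).choose j : ℤ) * b ^ (m + 1 - 2 * j) * c ^ j := by
  rcases Nat.lt_or_ge m (2 * j) with h | h
  · rw [t_zero h, Nat.choose_eq_zero_of_lt h]; simp
  · unfold t
    rw [show m + 1 - 2 * j = (m - 2 * j) + 1 by omega, pow_succ]
    ring

theorem t_mul_b2 (b c : ℤ) (m j : ℕ) : b ^ 2 * t b c m j =
    (m.choose (2 * j) : ℤ) * ((2 * j).choose j : ℤ) * b ^ (m + 2 - 2 * j) * c ^ j := by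
  rcases Nat.lt_or_ge m (2 * j) with h | h
  · rw [t_zero h, Nat.choose_eq_zero_of_lt h]; simp
  · unfold t
    rw [show m + 2 - 2 * j = (m - 2 * j) + 2 by omega, pow_add]
    ring

/-- the recurrence for the terms -/
theorem t_rec (b c : ℤ) (m j : ℕ) : ((m : ℤ) + 2) * t b c (m + 2) (j + 1) -
    (2 * m + 3) * (b * t b c (m + 1) (j + 1)) + (m + 1) * (b ^ 2 * t b c m (j + 1)) =
    4 * (m + 1) * (c * t b c m j) := by
  rw [t_mul_b, t_mul_b2]
  unfold t
  rw [show m + 2 - 2 * (j + 1) = m - 2 * j by omega]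
  have h1 : (((m + 2).choose (2 * (j + 1)) : ℕ) : ℤ) = (m.choose (2 * j) : ℤ) +
      2 * (m.choose (2 * j + 1) : ℤ) + (m.choose (2 * j + 2) : ℤ) := by
    rw [show 2 * (j + 1) = 2 * j + 1 + 1 by ring, Nat.choose_succ_succ' (m + 1),
      Nat.choose_succ_succ' m (2 * j), Nat.choose_succ_succ' m (2 * j + 1)]
    push_cast
    ring
  have h2 : (((m + 1).choose (2 * (j + 1)) : ℕ) : ℤ) = (m.choose (2 * j + 1) : ℤ) +
      (m.choose (2 * j + 2) : ℤ) := by
    rw [show 2 * (j + 1) = 2 * j + 1 + 1 by ring, Nat.choose_succ_succ' m (2 * j + 1)]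
    push_cast
    ring
  have h3 : ((j : ℤ) + 1) * ((2 * (j + 1)).choose (j + 1) : ℤ) = 2 * (2 * j + 1) *
      ((2 * j).choose j : ℤ) := by
    have := Nat.succ_mul_centralBinom_succ j
    rw [Nat.centralBinom, Nat.centralBinom] at this
    exact_mod_cast this
  have h4 : (m.choose (2 * j + 1) : ℤ) * (2 * j + 1) = m.choose (2 * j) * (m - 2 * j) := by
    have := Nat.choose_succ_right_eq m (2 * j)
    rcases le_or_gt (2 * j) m with h | h
    · have e : ((m.choose (2 * j + 1) * (2 * j + 1) : ℕ) : ℤ) =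
        ((m.choose (2 * j) * (m - 2 * j) : ℕ) : ℤ) := by rw [this]
      push_cast [Nat.cast_sub h] at e
      exact e
    · rw [Nat.choose_eq_zero_of_lt h, Nat.choose_eq_zero_of_lt (by omega)]
      simp
  rw [h1, h2, show 2 * (j + 1) = 2 * j + 2 by ring]
  rw [show 2 * (j + 1) = 2 * j + 2 by ring] at h3
  generalize (m.choose (2 * j) : ℤ) = x0 at *
  generalize (m.choose (2 * j + 1) : ℤ) = x1 at *
  generalize (m.choose (2 * j + 2) : ℤ) = x2 at *
  generalize ((2 * j + 2).choose (j + 1) : ℤ) = y1 at *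
  generalize ((2 * j).choose j : ℤ) = y0 at *
  generalize b ^ (m - 2 * j) = z at *
  have hj1 : (2 * (j : ℤ) + 1) ≠ 0 := by omega
  have hj2 : ((j : ℤ) + 1) ≠ 0 := by omega
  apply mul_left_cancel₀ hj1
  apply mul_left_cancel₀ hj2
  rw [pow_succ]
  linear_combination (c ^ j * c * z) * (2 * (m + 1) * (j + 1) * x0) * h3 +
    (c ^ j * c * z) * ((j : ℤ) + 1) * y1 * h4

theorem T_rec (b c : ℤ) (m : ℕ) : ((m : ℤ) + 2) * T b c (m + 2) = (2 * m + 3) * b * T b c (m + 1) -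
    (m + 1) * (b ^ 2 - 4 * c) * T b c m := by
  rw [T_eq b c (show (m + 2) / 2 + 1 ≤ m + 3 by omega), T_eq b c (show (m + 1) / 2 + 1 ≤ m + 3 by omega)]
  have e1 : T b c m = ∑ j ∈ range (m + 3), t b c m j := T_eq b c (by omega)
  have e2 : T b c m = ∑ j ∈ range (m + 2), t b c m j := T_eq b c (by omega)
  have key : ∑ j ∈ range (m + 2), (((m : ℤ) + 2) * t b c (m + 2) (j + 1) -
      (2 * m + 3) * (b * t b c (m + 1) (j + 1)) + (m + 1) * (b ^ 2 * t b c m (j + 1))) =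
      ∑ j ∈ range (m + 2), 4 * (m + 1) * (c * t b c m j) :=
    sum_congr rfl (fun j _ => t_rec b c m j)
  rw [sum_add_distrib, sum_sub_distrib, ← mul_sum, ← mul_sum, ← mul_sum, ← mul_sum, ← mul_sum,
    ← mul_sum, ← mul_sum, ← e2] at key
  have z1 := sum_range_succ' (fun j => t b c (m + 2) j) (m + 2)
  have z2 := sum_range_succ' (fun j => t b c (m + 1) j) (m + 2)
  have z3 := sum_range_succ' (fun j => t b c m j) (m + 2)
  rw [show m + 2 + 1 = m + 3 by ring] at z1 z2 z3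
  rw [← e1] at z3
  rw [z1, z2]
  have w1 : t b c (m + 2) 0 = b ^ (m + 2) := by simp [t]
  have w2 : t b c (m + 1) 0 = b ^ (m + 1) := by simp [t]
  have w3 : t b c m 0 = b ^ m := by simp [t]
  rw [w1, w2]
  rw [w3] at z3
  linear_combination key + (m + 1) * b ^ 2 * z3

theorem s_succ (b c : ℤ) (n : ℕ) : s b c (n + 1) = (b - 2 * c) ^ 2 * s b c n +
    (8 * c * n + 4 * c + b) * T b (c ^ 2) n ^ 2 := by
  unfold s
  rw [sum_range_succ, mul_sum]
  congr 1
  · apply sum_congr rfl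
    intro j hj
    have := mem_range.1 hj
    rw [show 2 * (n + 1 - 1 - j) = 2 + 2 * (n - 1 - j) by omega, pow_add]
    ring
  · rw [show 2 * (n + 1 - 1 - n) = 0 by omega, pow_zero, mul_one]

theorem T0 (b c : ℤ) : T b c 0 = 1 := by simp [T]

theorem T1 (b c : ℤ) : T b c 1 = b := by simp [T]

/-- The closed form. -/
theorem closed (b c : ℤ) (n : ℕ) : 2 * b * c * s b c (n + 1) = (n + 1) *
    (2 * c * (b + 2 * c) * (T b (c ^ 2) (n + 1) * T b (c ^ 2) n) +
      (n + 1) * b * (T b (c ^ 2) (n + 1) - (b + 2 * c) * T b (c ^ 2) n) ^ 2) := by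
  induction n with
  | zero =>
    rw [s_succ, T0, zero_add, T1]
    simp [s]
    ring
  | succ n ih =>
    rw [s_succ]
    have hr := T_rec b (c ^ 2) n
    rw [show n + 1 + 1 = n + 2 by ring]
    generalize T b (c ^ 2) (n + 2) = z at *
    generalize T b (c ^ 2) (n + 1) = y at *
    generalize T b (c ^ 2) n = x at *
    push_cast
    linear_combination (b - 2 * c) ^ 2 * ih - (2 * c * (b + 2 * c) * y + b * (((n : ℤ) + 2) * z +
      ((2 * n + 3) * b * y - (n + 1) * (b ^ 2 - 4 * c ^ 2) * x) - 2 * (n + 2) * (b + 2 * c) * y)) * hr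

theorem T_odd (b c : ℤ) {m : ℕ} (hm : m % 2 = 1) : b ∣ T b c m := by
  unfold T
  apply dvd_sum
  intro j hj
  have := mem_range.1 hj
  apply Dvd.dvd.mul_right
  apply Dvd.dvd.mul_left
  exact dvd_pow_self b (by omega)

theorem T_mul_dvd (b c : ℤ) (n : ℕ) : b ∣ T b c (n + 1) * T b c n := by
  rcases Nat.mod_two_eq_zero_or_one n with h | h
  · exact (T_odd b c (show (n + 1) % 2 = 1 by omega)).mul_right _
  · exact (T_odd b c h).mul_left _

theorem T_form (b c : ℤ) (m : ℕ) : ∃ z, T b (c ^ 2) m = b ^ m + 2 * c ^ 2 * z := by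
  have h : 2 * c ^ 2 ∣ T b (c ^ 2) m - b ^ m := by
    unfold T
    rw [sum_range_succ']
    simp only [mul_zero, Nat.choose_zero_right, Nat.cast_one, Nat.sub_zero, pow_zero, mul_one,
      one_mul, add_sub_cancel_right]
    apply dvd_sum
    intro j _
    have h1 : (2 : ℤ) ∣ ((2 * (j + 1)).choose (j + 1) : ℤ) := by
      have := Nat.two_dvd_centralBinom_succ j
      rw [Nat.centralBinom] at this
      exact_mod_cast this
    obtain ⟨y, hy⟩ := h1
    rw [hy, pow_succ]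
    exact ⟨(m.choose (2 * (j + 1)) : ℤ) * y * b ^ (m - 2 * (j + 1)) * (c ^ 2) ^ j, by ring⟩
  obtain ⟨z, hz⟩ := h
  exact ⟨z, by linear_combination hz⟩

/-- The divisibility with an explicit quotient, `b ≠ 0`. -/
theorem quot (b c : ℤ) (hb : b ≠ 0) (n : ℕ) : ∃ U X : ℤ,
    T b (c ^ 2) (n + 1) * T b (c ^ 2) n = b * U ∧
    s b c (n + 1) = (n + 1) * ((b + 2 * c) * U + 2 * c * (n + 1) * X ^ 2) := by
  obtain ⟨U, hU⟩ := T_mul_dvd b (c ^ 2) n
  obtain ⟨z', hz'⟩ := T_form b c (n + 1)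
  obtain ⟨z, hz⟩ := T_form b c n
  refine ⟨U, c * z' - b ^ n - c * (b + 2 * c) * z, hU, ?_⟩
  rcases eq_or_ne c 0 with hc | hc
  · -- `c = 0`
    subst hc
    have hT : ∀ j, T b (0 ^ 2) j = b ^ j := by
      intro j
      obtain ⟨w, hw⟩ := T_form b 0 j
      rw [hw]; ring
    rw [hT, hT] at hU
    have hU' : U = b ^ (2 * n) := by
      apply mul_left_cancel₀ hb
      rw [← hU]; ring
    have hs : s b 0 (n + 1) = (n + 1) * (b * b ^ (2 * n)) := by
      unfold s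
      rw [sum_congr rfl (g := fun _ => b * b ^ (2 * n))]
      · rw [sum_const, card_range, nsmul_eq_mul]; push_cast; ring
      · intro j hj
        have := mem_range.1 hj
        rw [hT, show 2 * n = 2 * j + 2 * (n + 1 - 1 - j) by omega, pow_add]
        ring
    rw [hs, hU']
    ring
  · have h := closed b c n
    rw [hU] at h
    have e : T b (c ^ 2) (n + 1) - (b + 2 * c) * T b (c ^ 2) n =
        2 * c * (c * z' - b ^ n - c * (b + 2 * c) * z) := by
      rw [hz', hz]; ring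
    rw [e] at h
    have hbc : 2 * b * c ≠ 0 := mul_ne_zero (mul_ne_zero two_ne_zero hb) hc
    apply mul_left_cancel₀ hbc
    rw [h]
    ring

theorem T_modEq {N b b' c c' : ℤ} (hb : b ≡ b' [ZMOD N]) (hc : c ≡ c' [ZMOD N]) (m : ℕ) :
    T b c m ≡ T b' c' m [ZMOD N] := by
  unfold T
  apply Int.ModEq.sum
  intro j _
  exact ((Int.ModEq.refl _).mul (hb.pow _)).mul (hc.pow _)

theorem s_modEq {N b b' c c' : ℤ} (hb : b ≡ b' [ZMOD N]) (hc : c ≡ c' [ZMOD N]) (m : ℕ) :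
    s b c m ≡ s b' c' m [ZMOD N] := by
  unfold s
  apply Int.ModEq.sum
  intro j _
  exact (((((hc.mul_left 8).mul_right _).add (hc.mul_left 4)).add hb).mul
    ((T_modEq hb (hc.pow 2) j).pow 2)).mul ((hb.sub (hc.mul_left 2)).pow _)

theorem Q1 (b c : ℤ) (n : ℕ) (hn : 1 ≤ n) : (n : ℤ) ∣ s b c n := by
  obtain ⟨k, rfl⟩ : ∃ k, n = k + 1 := ⟨n - 1, by omega⟩
  have key : ∀ b : ℤ, b ≠ 0 → ((k + 1 : ℕ) : ℤ) ∣ s b c (k + 1) := by
    intro b hb
    obtain ⟨U, X, _, h⟩ := quot b c hb k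
    rw [h]
    push_cast
    exact Dvd.intro _ rfl
  rcases eq_or_ne b 0 with hb | hb
  · subst hb
    have h1 := key ((k + 1 : ℕ) : ℤ) (by positivity)
    have h2 : s 0 c (k + 1) ≡ s ((k + 1 : ℕ) : ℤ) c (k + 1) [ZMOD ((k + 1 : ℕ) : ℤ)] := by
      apply s_modEq _ (Int.ModEq.refl _)
      rw [Int.modEq_iff_dvd]
      simp
    exact (Int.ModEq.dvd_iff h2).2 h1
  · exact key b hb

/-! ### The congruence modulo `p ^ 2` -/

section modp

variable {p : ℕ} [hp : Fact p.Prime]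

theorem choose_pred (k : ℕ) (hk : 2 * k < p) : (((p - 1).choose (2 * k) : ℕ) : ZMod p) = 1 := by
  have key : ∀ k : ℕ, k < p → (((p - 1).choose k : ℕ) : ZMod p) = (-1) ^ k := by
    intro k
    induction k with
    | zero => intro _; simp
    | succ k ih =>
      intro hk
      have h1 := Nat.choose_succ_succ' (p - 1) k
      rw [show p - 1 + 1 = p by have := hp.out.pos; omega] at h1
      have h2 : ((p.choose (k + 1) : ℕ) : ZMod p) = 0 := by
        rw [ZMod.natCast_eq_zero_iff]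
        exact hp.out.dvd_choose_self (Nat.succ_ne_zero k) hk
      rw [h1, Nat.cast_add, ih (by omega)] at h2
      rw [pow_succ]
      linear_combination h2
  rw [key _ hk, pow_mul]
  norm_num

theorem central (h : ℕ) (hh : 2 * h + 1 = p) : ∀ j : ℕ, j ≤ h →
    (((2 * j).choose j : ℕ) : ZMod p) = (-4) ^ j * (h.choose j : ZMod p) := by
  intro j
  induction j with
  | zero => intro _; simp
  | succ j ih =>
    intro hj
    have ih' := ih (by omega)
    have h3 : ((j : ZMod p) + 1) * (((2 * (j + 1)).choose (j + 1) : ℕ) : ZMod p) =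
        2 * (2 * j + 1) * (((2 * j).choose j : ℕ) : ZMod p) := by
      have := Nat.succ_mul_centralBinom_succ j
      rw [Nat.centralBinom, Nat.centralBinom] at this
      have e := congrArg (Nat.cast : ℕ → ZMod p) this
      push_cast at e
      exact e
    have h4 : (h.choose (j + 1) : ZMod p) * (j + 1) = h.choose j * (h - j) := by
      have := Nat.choose_succ_right_eq h j
      have e : ((h.choose (j + 1) * (j + 1) : ℕ) : ZMod p) =
        ((h.choose j * (h - j) : ℕ) : ZMod p) := by rw [this]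
      push_cast [Nat.cast_sub (show j ≤ h by omega)] at e
      exact e
    have h5 : (2 : ZMod p) * h + 1 = 0 := by
      have : ((2 * h + 1 : ℕ) : ZMod p) = 0 := by rw [hh]; simp
      exact_mod_cast this
    have h6 : ((j : ZMod p) + 1) ≠ 0 := by
      have : ((j + 1 : ℕ) : ZMod p) ≠ 0 := by
        rw [Ne, ZMod.natCast_eq_zero_iff]
        intro hd
        have := Nat.le_of_dvd (Nat.succ_pos j) hd
        omega
      exact_mod_cast this
    apply mul_left_cancel₀ h6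
    rw [h3, ih', pow_succ]
    linear_combination 4 * (-4) ^ j * h4 + 2 * (-4) ^ j * (h.choose j : ZMod p) * h5

/-- `T_{p-1} = (D / p)` modulo `p` -/
theorem T_pred (b c : ℤ) (hp2 : p ≠ 2) :
    ((T b (c ^ 2) (p - 1) : ℤ) : ZMod p) = ((legendreSym p (b ^ 2 - 4 * c ^ 2) : ℤ) : ZMod p) := by
  obtain ⟨h, hh⟩ := hp.out.eq_two_or_odd'.resolve_left hp2
  rw [legendreSym.eq_pow]
  have e1 : ((T b (c ^ 2) (p - 1) : ℤ) : ZMod p) = ∑ j ∈ range (h + 1),
      ((-4 * (c : ZMod p) ^ 2) ^ j * ((b : ZMod p) ^ 2) ^ (h - j) * (h.choose j : ZMod p)) := by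
    unfold T
    rw [show (p - 1) / 2 + 1 = h + 1 by omega]
    push_cast
    apply sum_congr rfl
    intro j hj
    have hj' := mem_range.1 hj
    have k1 := choose_pred (p := p) j (by omega)
    have k2 := central (p := p) h hh.symm j (by omega)
    rw [k1, k2, show p - 1 - 2 * j = 2 * (h - j) by omega, mul_pow, pow_mul (b : ZMod p)]
    ring
  rw [e1]
  have e2 := add_pow (-4 * (c : ZMod p) ^ 2) ((b : ZMod p) ^ 2) h
  rw [← e2, show p / 2 = h by omega]
  push_cast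
  congr 1
  ring

theorem T_p (b c : ℤ) (hp2 : p ≠ 2) : ((T b (c ^ 2) p : ℤ) : ZMod p) = (b : ZMod p) := by
  unfold T
  push_cast
  rw [sum_range_succ', sum_eq_zero]
  · simp
  · intro j hj
    have hj' := mem_range.1 hj
    have h2 : ((p.choose (2 * (j + 1)) : ℕ) : ZMod p) = 0 := by
      rcases Nat.lt_or_ge (2 * (j + 1)) p with h | h
      · rw [ZMod.natCast_eq_zero_iff]
        exact hp.out.dvd_choose_self (by omega) h
      · exfalso
        have h3 : 2 * (j + 1) = p := by omega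
        have h4 : 2 ∣ p := ⟨j + 1, h3.symm⟩
        have h5 := (Nat.prime_dvd_prime_iff_eq Nat.prime_two hp.out).1 h4
        omega
    rw [h2]
    ring

theorem Q2_aux (b c : ℤ) (hp2 : p ≠ 2) (hb : ¬ (p : ℤ) ∣ b) :
    (p : ℤ) ^ 2 ∣ s b c p - p * (b + 2 * c) * legendreSym p (b ^ 2 - 4 * c ^ 2) := by
  have hb0 : b ≠ 0 := by rintro rfl; exact hb (dvd_zero _)
  obtain ⟨n, hn⟩ : ∃ n, p = n + 1 := ⟨p - 1, by have := hp.out.pos; omega⟩
  obtain ⟨U, X, hU, hs⟩ := quot b c hb0 n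
  rw [← hn] at hs hU
  have e1 : ((n : ℤ) + 1) = p := by rw [hn]; push_cast; rfl
  rw [e1] at hs
  have hUp : (p : ℤ) ∣ U - legendreSym p (b ^ 2 - 4 * c ^ 2) := by
    have hbz : (b : ZMod p) ≠ 0 := by
      rw [Ne, ZMod.intCast_zmod_eq_zero_iff_dvd]
      exact hb
    have h1 := congrArg (Int.cast : ℤ → ZMod p) hU
    push_cast at h1
    have h2 := T_pred (p := p) b c hp2
    rw [show p - 1 = n by omega] at h2
    rw [T_p b c hp2, h2] at h1
    have h3 := mul_left_cancel₀ hbz h1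
    rw [← ZMod.intCast_zmod_eq_zero_iff_dvd]
    push_cast
    rw [← h3]
    ring
  obtain ⟨w, hw⟩ := hUp
  refine ⟨(b + 2 * c) * w + 2 * c * X ^ 2, ?_⟩
  rw [hs]
  linear_combination (p : ℤ) * (b + 2 * c) * hw

end modp

/-- `x ≡ y (mod p ^ n)` for rationals: `x - y` is `p ^ n` times a rational with denominator prime
to `p`. -/
def Cong (p n : ℕ) (x y : ℚ) : Prop := ∃ z : ℚ, ¬ p ∣ z.den ∧ x - y = (p : ℚ) ^ n * z

theorem Q2 (b c : ℤ) (p : ℕ) [hpf : Fact p.Prime] (hpo : p ≠ 2)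
    (hpb : ¬ (p : ℤ) ∣ b * (b - 2 * c)) :
    Cong p 2 (∑ j ∈ range p, (8 * (c : ℚ) * j + 4 * c + b) * (T b (c ^ 2) j : ℚ) ^ 2 /
      ((b : ℚ) - 2 * c) ^ (2 * j)) (p * ((b : ℚ) + 2 * c) * (legendreSym p (b ^ 2 - 4 * c ^ 2) : ℚ)) := by
  have hp := hpf.out
  have hb : ¬ (p : ℤ) ∣ b := fun h => hpb (h.mul_right _)
  have hw : ¬ (p : ℤ) ∣ b - 2 * c := fun h => hpb (h.mul_left _)
  have hw0 : ((b : ℚ) - 2 * c) ≠ 0 := by
    intro h
    apply hw
    have : (b - 2 * c : ℤ) = 0 := by exact_mod_cast h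
    rw [this]; exact dvd_zero _
  have hW : ¬ (p : ℤ) ∣ (b - 2 * c) ^ (2 * (p - 1)) := fun h =>
    hw (Int.Prime.dvd_pow' hp h)
  -- the sum
  have e1 : (((b - 2 * c) ^ (2 * (p - 1)) : ℤ) : ℚ) * ∑ j ∈ range p, (8 * (c : ℚ) * j + 4 * c + b) *
      (T b (c ^ 2) j : ℚ) ^ 2 / ((b : ℚ) - 2 * c) ^ (2 * j) = (s b c p : ℚ) := by
    unfold s
    push_cast
    rw [mul_sum]
    apply sum_congr rfl
    intro j hj
    have := mem_range.1 hj
    rw [show 2 * (p - 1) = 2 * (p - 1 - j) + 2 * j by omega, pow_add]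
    have h1 : ((b : ℚ) - 2 * c) ^ (2 * j) ≠ 0 := pow_ne_zero _ hw0
    field_simp
  have h2 := Q2_aux (p := p) b c hpo hb
  -- `w ^ (2 (p - 1)) = 1` modulo `p`
  have h3 : (p : ℤ) ∣ (b - 2 * c) ^ (2 * (p - 1)) - 1 := by
    rw [← ZMod.intCast_zmod_eq_zero_iff_dvd]
    push_cast
    have h4 : ((b : ZMod p) - 2 * c) ≠ 0 := by
      intro h
      apply hw
      rw [← ZMod.intCast_zmod_eq_zero_iff_dvd]
      push_cast
      exact h
    rw [mul_comm 2 (p - 1), pow_mul, ZMod.pow_card_sub_one_eq_one h4]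
    ring
  obtain ⟨u, hu⟩ := h2
  obtain ⟨v, hv⟩ := h3
  have h5 : (((b - 2 * c) ^ (2 * (p - 1)) : ℤ) : ℚ) * ((∑ j ∈ range p, (8 * (c : ℚ) * j + 4 * c + b) *
      (T b (c ^ 2) j : ℚ) ^ 2 / ((b : ℚ) - 2 * c) ^ (2 * j)) -
      (p * ((b : ℚ) + 2 * c) * (legendreSym p (b ^ 2 - 4 * c ^ 2) : ℚ))) ∈ I p 2 := by
    rw [mul_sub, e1]
    refine ⟨((u - (b + 2 * c) * legendreSym p (b ^ 2 - 4 * c ^ 2) * v : ℤ) : ℚ), int_O _, ?_⟩
    have hu' : (s b c p : ℚ) - p * (b + 2 * c) * legendreSym p (b ^ 2 - 4 * c ^ 2) = p ^ 2 * u := by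
      exact_mod_cast hu
    have hv' : (((b - 2 * c) ^ (2 * (p - 1)) : ℤ) : ℚ) - 1 = p * v := by exact_mod_cast hv
    push_cast
    push_cast at hv'
    linear_combination hu' - p * (b + 2 * c) * (legendreSym p (b ^ 2 - 4 * c ^ 2) : ℚ) * hv'
  exact of_unit_mul hW h5

/-- **MP_bba144_nt**, Q1 and Q2. -/
theorem result :
    (∀ (b c : ℤ) (n : ℕ), 1 ≤ n → (n : ℤ) ∣ ∑ j ∈ range n,
      (8 * c * j + 4 * c + b) * T b (c ^ 2) j ^ 2 * (b - 2 * c) ^ (2 * (n - 1 - j))) ∧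
    (∀ (b c : ℤ) (p : ℕ) [Fact p.Prime], p ≠ 2 → ¬ (p : ℤ) ∣ b * (b - 2 * c) →
      Cong p 2 (∑ j ∈ range p, (8 * (c : ℚ) * j + 4 * c + b) * (T b (c ^ 2) j : ℚ) ^ 2 /
        ((b : ℚ) - 2 * c) ^ (2 * j))
        (p * ((b : ℚ) + 2 * c) * (legendreSym p (b ^ 2 - 4 * c ^ 2) : ℚ))) :=
  ⟨fun b c n hn => Q1 b c n hn, fun b c p _ hp2 h => Q2 b c p hp2 h⟩

end Pool.Agent.Results.MP_bba144_nt.Full
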